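import Pool.Agent.H329S.Main2

/-!
# MP_e69fdc_co: subdivisions raise the inversion diameter by at most `O(log log Δ)`

Definitions used in the statement (in `Pool/Agent/H329S/Defs.lean`):
* `IsOrientation G o`: `o` is an orientation of `G`; `invert o X`: inversion of the set `X`;
* `DiamLE G t`: any orientation of `G` can be turned into any other by at most `t` inversions;
  `invDiam G`: the least such `t`;
* `subdiv G k`: the subdivision of `G` in which the edge `uv`, `u < v`, gets `k u v` new internal
  vertices;
* `onceNbrs G k v`: the neighbours `w` of `v` for which the edge `vw` is subdivided exactly once.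
-/

namespace Pool.Agent.Results.MP_e69fdc_co.SubdivisionLogLog

open Pool.Agent.H329S

/-- Let `H` be a subdivision of a finite graph `G` and split `V(G)` into `p` parts (given by `h`)
such that every vertex `v` of `G` has at most `D` neighbours `w` in its own part for which the edge
`vw` is subdivided exactly once. Then
`diam(H) ≤ diam(G) + ⌈log₂ p⌉ + 2 ⌈log₂ min(D + 1, 2 ⌈log₂ (8 D²)⌉)⌉ + 2`.
With `p = 1` the additive term is `2 log log Δ(G) + O(1)`, and it is constant for bounded `D`. -/
theorem result {V : Type*} [Fintype V] [LinearOrder V] (G : SimpleGraph V) (k : V → V → ℕ)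
    (p D : ℕ) (h : V → Fin p)
    (hD : ∀ v, {w | w ∈ onceNbrs G k v ∧ h w = h v}.ncard ≤ D) :
    invDiam (subdiv G k) ≤ invDiam G + Nat.clog 2 p +
      2 * Nat.clog 2 (min (D + 1) (2 * Nat.clog 2 (8 * D ^ 2))) + 2 := by
  have h1 : DiamLE G (invDiam G) := Nat.sInf_mem (exists_diamLE G)
  exact Nat.sInf_le (diam_subdiv_part G k h hD h1)

end Pool.Agent.Results.MP_e69fdc_co.SubdivisionLogLog
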